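import Pool.Agent.Y859.OE.Stm

/-! Project OE (helper859), job SM: the smooth part of a product of consecutive integers. -/

set_option autoImplicit false

namespace Pool.Agent.Y888.OE

open Finset

theorem block (A s : ℕ) : ∏ j ∈ Ioc A (A + s), j = s.factorial * (A + s).choose s := by
  rw [← Nat.ascFactorial_eq_factorial_mul_choose, Nat.ascFactorial_eq_prod_range]
  have h : Ioc A (A + s) = Ico (A + 1) (A + 1 + s) := by
    ext x
    rw [mem_Ioc, mem_Ico]
    omega
  rw [h, prod_Ico_eq_prod_range]
  have h2 : A + 1 + s - (A + 1) = s := by omega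
  rw [h2]

theorem t_SM : Pool.Agent.Y859.OE.S_SM := by
  intro A s _
  unfold Pool.Agent.Y859.OE.smp
  rw [prod_comm]
  set P := (Icc 1 s).filter Nat.Prime with hP
  have h1 : ∀ p, ∏ j ∈ Ioc A (A + s), p ^ j.factorization p =
      p ^ (s.factorial.factorization p) * p ^ (((A + s).choose s).factorization p) := by
    intro p
    rw [prod_pow_eq_pow_sum, ← pow_add]
    congr 1
    have h2 := Nat.factorization_prod_apply (S := Ioc A (A + s)) (g := fun j => j) (p := p)
      (fun x hx => by
        rw [mem_Ioc] at hx
        omega)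
    have h3 : ∏ x ∈ Ioc A (A + s), (fun j => j) x = s.factorial * (A + s).choose s := block A s
    rw [h3, Nat.factorization_mul (Nat.factorial_ne_zero s)
      (Nat.choose_pos (Nat.le_add_left s A)).ne'] at h2
    exact h2.symm
  rw [prod_congr rfl fun p _ => h1 p, prod_mul_distrib]
  have h4 : ∏ p ∈ P, p ^ (s.factorial.factorization p) = s.factorial := by
    have h5 := Nat.prod_factorization_pow_eq_self (Nat.factorial_ne_zero s)
    rw [Finsupp.prod_of_support_subset (s := P) _ _ _ (fun i _ => pow_zero i)] at h5
    · exact h5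
    · intro p hp
      rw [Nat.support_factorization, Nat.mem_primeFactors] at hp
      rw [hP, mem_filter, mem_Icc]
      exact ⟨⟨hp.1.one_lt.le, (hp.1.dvd_factorial).1 hp.2.1⟩, hp.1⟩
  rw [h4]
  refine Nat.mul_le_mul_left _ ?_
  rw [← prod_const]
  refine prod_le_prod' fun p hp => ?_
  rw [hP, mem_filter, mem_Icc] at hp
  exact Nat.pow_factorization_choose_le (by omega)

end Pool.Agent.Y888.OE
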